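import Pool.Agent.Helper83.RB.St2

/-! # Project RB, module NIR: from a multilinear relation to nilpotent action (after module PIR of helper67) -/

set_option autoImplicit false

namespace Pool.Agent.Helper65.RB

open Pool.Agent.Helper83.RB

/-- a multilinear map which vanishes on `S` vanishes on the span of `S` -/
private theorem vanish {R M M' : Type} [CommSemiring R] [AddCommMonoid M] [AddCommMonoid M']
    [Module R M] [Module R M'] {d : ℕ} (F : MultilinearMap R (fun _ : Fin d => M) M') (S : Set M)
    (hF : ∀ v : Fin d → M, (∀ i, v i ∈ S) → F v = 0) :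
    ∀ v : Fin d → M, (∀ i, v i ∈ Submodule.span R S) → F v = 0 := by
  have key : ∀ s : Finset (Fin d), ∀ v : Fin d → M, (∀ i ∈ s, v i ∈ Submodule.span R S) →
      (∀ i, i ∉ s → v i ∈ S) → F v = 0 := by
    intro s
    induction s using Finset.induction_on with
    | empty => intro v _ h; exact hF v (fun i => h i (by simp))
    | insert j s hj ih =>
      intro v h1 h2
      have h3 : ∀ w ∈ Submodule.span R S, F (Function.update v j w) = 0 := by
        intro w hw
        induction hw using Submodule.span_induction with
        | mem w hw =>
          apply ih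
          · intro i hi
            have hij : i ≠ j := fun h => hj (h ▸ hi)
            rw [Function.update_of_ne hij]
            exact h1 i (Finset.mem_insert_of_mem hi)
          · intro i hi
            by_cases hij : i = j
            · subst hij
              rw [Function.update_self]
              exact hw
            · rw [Function.update_of_ne hij]
              exact h2 i (by simp [hij, hi])
        | zero => exact F.map_update_zero v j
        | add x y _ _ hx hy => rw [F.map_update_add, hx, hy, add_zero]
        | smul c x _ hx => rw [F.map_update_smul, hx, smul_zero]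
      have h4 := h3 (v j) (h1 j (Finset.mem_insert_self j s))
      rwa [Function.update_eq_self] at h4
  intro v hv
  exact key Finset.univ v (fun i _ => hv i) (fun i hi => absurd (Finset.mem_univ i) hi)

/-- RB MODULE NIR -/
theorem hNIR (hNIL : StNIL) : StNIR := by
  intro p d hp
  obtain ⟨C₀, hC⟩ := hNIL p d
  refine ⟨C₀, ?_⟩
  intro m N _ hexp hgen W _ _ ρ hML l hl
  obtain ⟨a, ha0, hrel⟩ := hML
  let B : Subalgebra (ZMod p) (Module.End (ZMod p) W) := Algebra.adjoin (ZMod p) (Set.range ρ)
  have hspan : ∀ x : B, (x : Module.End (ZMod p) W) ∈ Submodule.span (ZMod p) (Set.range ρ) := by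
    intro x
    have h1 : (x : Module.End (ZMod p) W) ∈ Subalgebra.toSubmodule B := x.2
    have h2 : Subalgebra.toSubmodule B =
        Submodule.span (ZMod p) (Submonoid.closure (Set.range ρ) : Set (Module.End (ZMod p) W)) :=
      Algebra.adjoin_eq_span (ZMod p) (Set.range ρ)
    have h3 : (Submonoid.closure (Set.range ρ)) = MonoidHom.mrange ρ := by
      rw [← MonoidHom.coe_mrange, Submonoid.closure_eq]
    rw [h2, h3, MonoidHom.coe_mrange] at h1
    exact h1
  let F : MultilinearMap (ZMod p) (fun _ : Fin d => Module.End (ZMod p) W)
      (Module.End (ZMod p) W) :=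
    ∑ σ : Equiv.Perm (Fin d), a σ •
      (MultilinearMap.mkPiAlgebraFin (ZMod p) d (Module.End (ZMod p) W)).domDomCongr σ
  have hFa : ∀ v : Fin d → Module.End (ZMod p) W,
      F v = ∑ σ : Equiv.Perm (Fin d), a σ • (List.ofFn fun i => v (σ i)).prod := by
    intro v
    simp only [F, sum_apply, smul_apply,
      MultilinearMap.domDomCongr_apply, MultilinearMap.mkPiAlgebraFin_apply]
  have hF0 : ∀ v : Fin d → Module.End (ZMod p) W,
      (∀ i, v i ∈ Submodule.span (ZMod p) (Set.range ρ)) → F v = 0 := by
    apply vanish
    intro v hv
    choose g hg using hv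
    rw [hFa]
    rw [← hrel g]
    refine Finset.sum_congr rfl fun σ _ => ?_
    congr 1
    rw [map_list_prod, List.map_ofFn]
    congr 2
    funext i
    simp [hg]
  have hPI : PIdeg p d B := by
    refine ⟨a, ha0, fun x => ?_⟩
    have h1 := hF0 (fun i => (x i : Module.End (ZMod p) W)) (fun i => hspan (x i))
    rw [hFa] at h1
    apply Subtype.val_injective
    rw [← Subalgebra.coe_val, map_sum, map_zero]
    refine Eq.trans (Finset.sum_congr rfl fun σ _ => ?_) h1
    rw [map_smul, map_list_prod, List.map_ofFn]
    rfl
  let φ₀ : N →* B := MonoidHom.codRestrict ρ B (fun g => Algebra.subset_adjoin ⟨g, rfl⟩)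
  let φ : N →* Bˣ := φ₀.toHomUnits
  have h1 := hC m N hexp hgen B hPI φ l hl
  have h2 := congrArg B.val h1
  rw [map_list_prod, map_zero, List.map_map] at h2
  rw [← h2]
  congr 1

end Pool.Agent.Helper65.RB
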