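import Pool.Agent.Helper83.RB.St

set_option autoImplicit false

/-! Project RB, module SOL. -/

namespace Pool.Agent.Helper65.RB

open Pool.Agent.Helper83.RB
open scoped commutatorElement

theorem map_top_lcs {G : Type} [Group G] (M : Subgroup G) [M.Normal] (k : ℕ) :
    ((⊤ : Subgroup G).lowerCentralSeries k).map (QuotientGroup.mk' M) =
      (⊤ : Subgroup (G ⧸ M)).lowerCentralSeries k := by
  rw [Subgroup.map_lowerCentralSeries, Subgroup.map_top_of_surjective _ (QuotientGroup.mk'_surjective M)]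

theorem sol_step (hABN : StABN) (p : ℕ) [Fact p.Prime] (G : Type) [Group G] [Finite G]
    (hp : ∀ g : G, g ^ p = 1) (A B : Subgroup G) [A.Normal] [B.Normal] (hAB : ⁅A, A⁆ ≤ B) (n : ℕ)
    (h : (⊤ : Subgroup G).lowerCentralSeries n ≤ A) :
    (⊤ : Subgroup G).lowerCentralSeries (p * n + 1) ≤ B := by
  have hn : (A.map (QuotientGroup.mk' B)).Normal :=
    Subgroup.Normal.map inferInstance _ (QuotientGroup.mk'_surjective B)
  have key := hABN p n (G ⧸ B) (by
      intro q
      obtain ⟨g, rfl⟩ := QuotientGroup.mk'_surjective B q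
      rw [← map_pow, hp g, map_one]) (A.map (QuotientGroup.mk' B)) (by
      rintro _ ⟨a, ha, rfl⟩ _ ⟨b, hb, rfl⟩
      rw [← map_mul, ← map_mul]
      have hc : ⁅a⁻¹, b⁻¹⁆ ∈ B := hAB (Subgroup.commutator_mem_commutator (A.inv_mem ha) (A.inv_mem hb))
      rw [QuotientGroup.mk'_apply, QuotientGroup.mk'_apply, QuotientGroup.eq]
      have he : (a * b)⁻¹ * (b * a) = ⁅b⁻¹, a⁻¹⁆ := by
        rw [commutatorElement_def]; group
      rw [he, ← commutatorElement_inv]
      exact B.inv_mem hc) (by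
      rw [← map_top_lcs]
      exact Subgroup.map_mono h)
  rw [← map_top_lcs, Subgroup.map_eq_bot_iff, QuotientGroup.ker_mk'] at key
  exact key

theorem hSOL (hABN : StABN) : StSOL := by
  intro p _ G _ _ hp D hN hD c hc i
  have hp1 : 1 ≤ p := (Fact.out : p.Prime).one_lt.le
  have main : ∀ i : ℕ, ∃ n : ℕ, n + 1 ≤ p ^ i * (c + 1) ∧ (⊤ : Subgroup G).lowerCentralSeries n ≤ D i := by
    intro i
    induction i with
    | zero => exact ⟨c, by simp, hc⟩
    | succ i ih =>
      obtain ⟨n, hn, h⟩ := ih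
      have := hN i
      have := hN (i + 1)
      refine ⟨p * n + 1, ?_, sol_step hABN p G hp (D i) (D (i + 1)) (hD i) n h⟩
      have h2 : p * (n + 1) ≤ p * (p ^ i * (c + 1)) := Nat.mul_le_mul_left p hn
      have h3 : p ^ (i + 1) * (c + 1) = p * (p ^ i * (c + 1)) := by rw [pow_succ]; ring
      have h4 : 2 ≤ p := (Fact.out : p.Prime).two_le
      rw [h3]
      have h5 : p * (n + 1) = p * n + p := by ring
      omega
  obtain ⟨n, hn, h⟩ := main i
  exact ((⊤ : Subgroup G).lowerCentralSeries_antitone (by omega)).trans h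

end Pool.Agent.Helper65.RB
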